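import Mathlib
import Pool.Agent.CubeR.Core

/-!
# Radial segments joining two opposite faces
-/

set_option autoImplicit false

open Filter Topology Set Metric

namespace Pool.Agent.CubeR

open Pool.Agent.Expand

variable {n : ℕ}

/-- Two radial paths through one point fit together to one radial path. -/
theorem radSet_glue {f : EuclideanSpace ℝ (Fin n) → EuclideanSpace ℝ (Fin n)}
    {Q : Set (EuclideanSpace ℝ (Fin n))} {δ : ℝ} (hδ : 0 < δ)
    (hexp : ∀ y ∈ Q, ∀ z ∈ Q, dist y z < δ → dist y z ≤ dist (f y) (f z))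
    {r a b b' : ℝ} {u : EuclideanSpace ℝ (Fin n)}
    {γ γ' : ℝ → EuclideanSpace ℝ (Fin n)} (h : (a, b, u, γ) ∈ radSet f Q r)
    (h' : (a, b', u, γ') ∈ radSet f Q r) (ha : γ a = γ' a) :
    ∃ g : ℝ → EuclideanSpace ℝ (Fin n), (b', b, u, g) ∈ radSet f Q r ∧ g b' = γ' b' ∧
      g b = γ b := by
  by_cases hb : b ∈ uIcc a b'
  · have h1 := radSet_unique hδ hexp h h' ha right_mem_uIcc hb
    refine ⟨γ', radSet_mk h'.2.1 h.2.1 h.2.2.1 h'.2.2.2.1 h'.2.2.2.2.1 ?_, rfl, h1.symm⟩
    intro t ht
    exact radSet_apply h' t (uIcc_subset_uIcc right_mem_uIcc hb ht)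
  by_cases hb' : b' ∈ uIcc a b
  · have h1 := radSet_unique hδ hexp h h' ha hb' right_mem_uIcc
    refine ⟨γ, radSet_mk h'.2.1 h.2.1 h.2.2.1 h.2.2.2.1 h.2.2.2.2.1 ?_, h1, rfl⟩
    intro t ht
    exact radSet_apply h t (uIcc_subset_uIcc hb' right_mem_uIcc ht)
  rw [mem_uIcc] at hb hb'
  push Not at hb hb'
  rcases le_total a b with h3 | h3
  · -- `b'` is on the other side of `a`
    have h4 : b' < a := by
      by_contra h4
      push Not at h4
      have h5 := hb.1 h3
      have h6 := hb'.1 h4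
      exact absurd (h5.trans h6) (lt_irrefl _)
    refine ⟨fun t => if t ≤ a then γ' t else γ t,
      radSet_mk h'.2.1 h.2.1 h.2.2.1 (lipschitz_glue h'.2.2.2.1 h.2.2.2.1 ha.symm) ?_ ?_, ?_, ?_⟩
    · intro t
      by_cases ht : t ≤ a
      · simp only [if_pos ht]; exact h'.2.2.2.2.1 t
      · simp only [if_neg ht]; exact h.2.2.2.2.1 t
    · intro t ht
      rw [uIcc_of_le (by linarith)] at ht
      by_cases hta : t ≤ a
      · simp only [if_pos hta]
        apply radSet_apply h'
        rw [uIcc_of_ge h4.le]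
        exact ⟨ht.1, hta⟩
      · simp only [if_neg hta]
        push Not at hta
        apply radSet_apply h
        rw [uIcc_of_le h3]
        exact ⟨hta.le, ht.2⟩
    · simp only [if_pos h4.le]
    · by_cases hba : b ≤ a
      · have : b = a := le_antisymm hba h3
        simp only [if_pos hba]
        rw [this, ha]
      · simp only [if_neg hba]
  · have h4 : a < b' := by
      by_contra h4
      push Not at h4
      rcases le_total b b' with h5 | h5
      · have := hb'.2 h5
        exact absurd (lt_of_lt_of_le this h4) (lt_irrefl _)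
      · have := hb.2 h5
        exact absurd (lt_of_lt_of_le this h3) (lt_irrefl _)
    refine ⟨fun t => if t ≤ a then γ t else γ' t,
      radSet_mk h'.2.1 h.2.1 h.2.2.1 (lipschitz_glue h.2.2.2.1 h'.2.2.2.1 ha) ?_ ?_, ?_, ?_⟩
    · intro t
      by_cases ht : t ≤ a
      · simp only [if_pos ht]; exact h.2.2.2.2.1 t
      · simp only [if_neg ht]; exact h'.2.2.2.2.1 t
    · intro t ht
      rw [uIcc_of_ge (by linarith)] at ht
      by_cases hta : t ≤ a
      · simp only [if_pos hta]
        apply radSet_apply h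
        rw [uIcc_of_ge h3]
        exact ⟨ht.1, hta⟩
      · simp only [if_neg hta]
        push Not at hta
        apply radSet_apply h'
        rw [uIcc_of_le h4.le]
        exact ⟨hta.le, ht.2⟩
    · simp only [if_neg (not_le.mpr h4)]
    · simp only [if_pos h3]

/-- radial paths of a smaller cube are radial paths of the larger one -/
theorem radSet_mono {f : EuclideanSpace ℝ (Fin n) → EuclideanSpace ℝ (Fin n)}
    {Q Q' : Set (EuclideanSpace ℝ (Fin n))} (hQ : Q ⊆ Q') {r : ℝ} :
    radSet f Q r ⊆ radSet f Q' r := by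
  rintro p ⟨h1, h2, h3, h4, h5, h6⟩
  exact ⟨h1, h2, h3, h4, fun t => hQ (h5 t), h6⟩

/-- The distance estimate at the end. -/
theorem le_of_corner {e0 R κ : ℝ} (hR : 0 ≤ R) (hκ : 0 ≤ κ)
    {h x : EuclideanSpace ℝ (Fin n)} (hx : dist x h < e0) (v : Fin n → ℝ)
    (hv : ∀ j, κ ≤ |v j - h j|) (hsum : ∑ j, (v j - x j) ^ 2 ≤ R ^ 2) :
    κ * Real.sqrt n ≤ R + e0 := by
  set V : EuclideanSpace ℝ (Fin n) := WithLp.toLp 2 v with hV
  have hVx : ‖V - x‖ ≤ R := by
    apply abs_le_of_sq_le_sq' _ hR |>.2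
    rw [EuclideanSpace.norm_sq_eq]
    refine le_trans (le_of_eq ?_) hsum
    apply Finset.sum_congr rfl
    intro j _
    rw [Real.norm_eq_abs, sq_abs]
    rfl
  have hVh : κ * Real.sqrt n ≤ ‖V - h‖ := by
    have h6 := le_norm_sq_of_coord (V - h) κ hκ (fun j => hv j)
    apply abs_le_of_sq_le_sq' _ (norm_nonneg _) |>.2
    rw [mul_pow, Real.sq_sqrt (Nat.cast_nonneg n)]
    linarith
  have h8 : ‖V - h‖ ≤ ‖V - x‖ + dist x h := by
    rw [dist_eq_norm]
    calc ‖V - h‖ = ‖(V - x) + (x - h)‖ := by congr 1; abel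
      _ ≤ ‖V - x‖ + ‖x - h‖ := norm_add_le _ _
  linarith

/-- If an expanding map sends the cube into a ball of radius less than `√n`, then some radial
segment lifts to a path joining two opposite faces of the cube. -/
theorem exists_chord (f : EuclideanSpace ℝ (Fin n) → EuclideanSpace ℝ (Fin n))
    (hf : IsExpandingOn f (cube n)) (p : EuclideanSpace ℝ (Fin n)) (r : ℝ)
    (h : Set.MapsTo f (cube n) (closedBall p r)) (hrn : r < Real.sqrt n) :
    ∃ (j : Fin n) (u : EuclideanSpace ℝ (Fin n)) (a b : ℝ)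
      (γ : ℝ → EuclideanSpace ℝ (Fin n)), ‖u‖ = 1 ∧ 0 ≤ a ∧ a + 2 ≤ b ∧ b ≤ r ∧
      LipschitzWith 1 γ ∧ (∀ t, γ t ∈ cube n) ∧ (∀ t ∈ Icc a b, f (γ t) = p + t • u) ∧
      |γ a j| = 1 ∧ γ b j = -γ a j := by
  have h0 : (0 : EuclideanSpace ℝ (Fin n)) ∈ cube n := by
    intro i
    simp
  have hr0 : 0 ≤ r := dist_nonneg.trans (h h0)
  rcases Nat.eq_zero_or_pos n with hn | hn
  · subst hn
    simp at hrn
    linarith
  by_contra hcon
  have hsn : 0 < Real.sqrt n := Real.sqrt_pos.mpr (by exact_mod_cast hn)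
  have hXc : IsCompact (cube n) := isCompact_cubeS 1
  obtain ⟨δ, hδ, hexp⟩ := exists_uniform hXc hf
  set g : EuclideanSpace ℝ (Fin n) → EuclideanSpace ℝ (Fin n) := fun x => f x - p with hg
  have hgc : ContinuousOn g (cube n) := hf.1.sub continuousOn_const
  have hgexp : ∀ y ∈ cube n, ∀ z ∈ cube n, dist y z < δ → dist y z ≤ dist (g y) (g z) := by
    intro y hy z hz hyz
    simp only [hg]
    rw [dist_sub_right]
    exact hexp y hy z hz hyz
  have hgr : ∀ x ∈ cube n, ‖g x‖ ≤ r := by
    intro x hx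
    have := h hx
    rw [mem_closedBall, dist_eq_norm] at this
    exact this
  have hRc := isCompact_radSet hXc hgc r
  -- no radial path goes from one face to the opposite one
  have hlt : ∀ j, ∀ q ∈ radSet g (cube n) r, q.2.2.2 q.2.1 j - q.2.2.2 q.1 j < 2 := by
    rintro j ⟨a, b, u, γ⟩ hq
    simp only
    have e1 : |γ b j| ≤ 1 := hq.2.2.2.2.1 b j
    have e2 : |γ a j| ≤ 1 := hq.2.2.2.2.1 a j
    by_contra hge
    push Not at hge
    have e3 : γ b j = 1 := by
      have := (abs_le.mp e1).2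
      have := (abs_le.mp e2).1
      linarith
    have e4 : γ a j = -1 := by
      have := (abs_le.mp e1).2
      have := (abs_le.mp e2).1
      linarith
    have e5 : 2 ≤ |b - a| := by
      have h1 := abs_coord_le_dist (γ b) (γ a) j
      have h2 := hq.2.2.2.1.dist_le_mul b a
      rw [e3, e4, NNReal.coe_one, one_mul, Real.dist_eq] at *
      norm_num at h1
      linarith
    apply hcon
    rcases le_total a b with hab | hab
    · rw [abs_of_nonneg (by linarith)] at e5
      refine ⟨j, u, a, b, γ, hq.2.2.1, hq.1.1, by linarith, hq.2.1.2, hq.2.2.2.1,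
        hq.2.2.2.2.1, ?_, by rw [e4]; norm_num, by rw [e3, e4]; norm_num⟩
      intro t ht
      have h1 := radSet_apply hq t (by rw [uIcc_of_le hab]; exact ht)
      rw [← h1]
      simp only [hg]
      abel
    · rw [abs_of_nonpos (by linarith)] at e5
      refine ⟨j, u, b, a, γ, hq.2.2.1, hq.2.1.1, by linarith, hq.1.2, hq.2.2.2.1,
        hq.2.2.2.2.1, ?_, by rw [e3]; norm_num, by rw [e3, e4]⟩
      intro t ht
      have h1 := radSet_apply hq t (by rw [uIcc_of_ge hab]; exact ht)
      rw [← h1]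
      simp only [hg]
      abel
  have hbd : ∃ m < 2, ∀ j, ∀ q ∈ radSet g (cube n) r,
      q.2.2.2 q.2.1 j - q.2.2.2 q.1 j ≤ m := by
    have h1 : ∀ j, ∃ m < 2, ∀ q ∈ radSet g (cube n) r,
        q.2.2.2 q.2.1 j - q.2.2.2 q.1 j ≤ m := by
      intro j
      rcases (radSet g (cube n) r).eq_empty_or_nonempty with hne | hne
      · exact ⟨0, by norm_num, fun q hq => by rw [hne] at hq; exact absurd hq (notMem_empty q)⟩
      · have hc1 : ContinuousOn (fun p : ℝ × ℝ × EuclideanSpace ℝ (Fin n) ×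
            (ℝ → EuclideanSpace ℝ (Fin n)) => p.2.2.2 p.2.1) (radSet g (cube n) r) := by
          have h2 : ContinuousOn (fun p : ℝ × ℝ × EuclideanSpace ℝ (Fin n) ×
            (ℝ → EuclideanSpace ℝ (Fin n)) => (p.2.1, p.2.2.2)) (radSet g (cube n) r) := by
            apply Continuous.continuousOn
            fun_prop
          exact continuousOn_eval.comp h2 (fun p hp => ⟨trivial, hp.2.2.2.1⟩)
        have hc2 : ContinuousOn (fun p : ℝ × ℝ × EuclideanSpace ℝ (Fin n) ×
            (ℝ → EuclideanSpace ℝ (Fin n)) => p.2.2.2 p.1) (radSet g (cube n) r) := by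
          have h2 : ContinuousOn (fun p : ℝ × ℝ × EuclideanSpace ℝ (Fin n) ×
            (ℝ → EuclideanSpace ℝ (Fin n)) => (p.1, p.2.2.2)) (radSet g (cube n) r) := by
            apply Continuous.continuousOn
            fun_prop
          exact continuousOn_eval.comp h2 (fun p hp => ⟨trivial, hp.2.2.2.1⟩)
        have hco : Continuous (fun y : EuclideanSpace ℝ (Fin n) => y j) := by fun_prop
        obtain ⟨q, hq, hmax⟩ := hRc.exists_isMaxOn hne
          ((hco.comp_continuousOn hc1).sub (hco.comp_continuousOn hc2))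
        exact ⟨_, hlt j q hq, fun q' hq' => hmax hq'⟩
    choose m hm2 hm using h1
    have : Nonempty (Fin n) := ⟨⟨0, hn⟩⟩
    obtain ⟨k, hk⟩ := Finite.exists_max m
    exact ⟨m k, hm2 k, fun j q hq => (hm j q hq).trans (hk j)⟩
  obtain ⟨m, hm2, hm⟩ := hbd
  have hfin := finite_zeros hXc hgc hδ hgexp
  set M : ℝ := max 0 (max (m / 2) (r / Real.sqrt n)) with hM
  have hM1 : M < 1 := by
    apply max_lt zero_lt_one
    apply max_lt
    · linarith
    · rwa [div_lt_one hsn]
  have hbad : (⋃ i : Fin n, (fun x : EuclideanSpace ℝ (Fin n) => |x i|) ''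
      (cube n ∩ g ⁻¹' {0})).Finite := Set.finite_iUnion fun i => hfin.image _
  obtain ⟨s, ⟨hsm, hs1⟩, hsbad⟩ := ((Set.Ioo_infinite hM1).sdiff hbad).nonempty
  have hs0 : 0 < s := lt_of_le_of_lt (le_max_left _ _) hsm
  have hs2 : m / 2 < s := lt_of_le_of_lt ((le_max_left _ _).trans (le_max_right _ _)) hsm
  have hs3 : r / Real.sqrt n < s :=
    lt_of_le_of_lt ((le_max_right _ _).trans (le_max_right _ _)) hsm
  have hs4 : r < s * Real.sqrt n := by rwa [div_lt_iff₀ hsn] at hs3
  have hsub : {x : EuclideanSpace ℝ (Fin n) | ∀ i, |x i| ≤ s} ⊆ cube n :=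
    fun x hx i => (hx i).trans hs1.le
  obtain ⟨hh, x, hhQ, hh0, hxQ, hx0, hxh, htouch⟩ := core2 (f := g) hn hs0 hδ (hgc.mono hsub)
    (fun y hy z hz => hgexp y (hsub hy) z (hsub hz)) (fun x hx => hgr x (hsub hx))
    (by
      intro x hx hxQ i
      apply lt_of_le_of_ne (hxQ i)
      intro h3
      apply hsbad
      exact Set.mem_iUnion.mpr ⟨i, x, ⟨hsub hxQ, hx⟩, h3⟩)
    (by
      rintro x hx j ⟨h1, h2⟩
      obtain ⟨a, b, u, γ, p1, p2, p3⟩ := mem_touch.mp h1
      obtain ⟨a', b', u', γ', p1', p2', p3'⟩ := mem_touch.mp h2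
      have h4 := radSet_start p1 (by rw [p2]; exact hx)
      have h4' := radSet_start p1' (by rw [p2']; exact hx)
      rw [p2] at h4
      rw [p2'] at h4'
      obtain ⟨h5, h6⟩ := h4
      obtain ⟨h5', h6'⟩ := h4'
      have ha : a' = a := h5'.trans h5.symm
      have hu : u' = u := h6'.trans h6.symm
      subst ha hu
      obtain ⟨g', hg1, hg2, hg3⟩ := radSet_glue hδ
        (fun y hy z hz => hgexp y (hsub hy) z (hsub hz)) p1 p1' (p2.trans p2'.symm)
      have h7 := hm j _ (radSet_mono hsub hg1)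
      simp only [Set.mem_ofPred_eq] at p3 p3'
      simp only at h7
      rw [hg2, hg3, p3, p3'] at h7
      linarith)
    (fun h j => if 0 ≤ h j then -1 else 1)
    (by
      intro h j
      by_cases h3 : 0 ≤ h j
      · right; rw [if_pos h3]
      · left; rw [if_neg h3])
    (e0 := (s * Real.sqrt n - r) / 2) (by linarith)
  have hsum := sum_sq_le_of_touch hδ (fun y hy z hz => hgexp y (hsub hy) z (hsub hz)) hx0 _ htouch
  have h9 := le_of_corner hr0 hs0.le hxh
    (fun j => (if 0 ≤ hh j then (-1 : ℝ) else 1) * s)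
    (by
      intro j
      by_cases h7 : 0 ≤ hh j
      · rw [if_pos h7, abs_of_nonpos (by linarith)]
        linarith
      · rw [if_neg h7]
        push Not at h7
        rw [abs_of_nonneg (by linarith)]
        linarith) hsum
  linarith

end Pool.Agent.CubeR
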