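import Mathlib
import Pool.Agent.CubeR.Chord

/-!
# Coordinatewise separated maps: the general estimate
-/

set_option autoImplicit false

open Filter Topology Set Metric

namespace Pool.Agent.CubeR

open Pool.Agent.Expand

variable {n : ℕ}

theorem exists_lt_one {α : Type*} [TopologicalSpace α] [T2Space α] {K : Set α} (hK : IsCompact K)
    {g φ : α → ℝ} (hg : ContinuousOn g K) (hφ : ContinuousOn φ K)
    (h : ∀ x ∈ K, g x ≤ 0 → φ x < 1) : ∃ t < 1, ∀ x ∈ K, g x ≤ 0 → φ x ≤ t := by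
  have h1 : IsCompact (K ∩ g ⁻¹' Iic 0) :=
    hK.of_isClosed_subset (hg.preimage_isClosed_of_isClosed hK.isClosed isClosed_Iic)
      inter_subset_left
  rcases (K ∩ g ⁻¹' Iic 0).eq_empty_or_nonempty with hne | hne
  · refine ⟨0, zero_lt_one, fun x hx hgx => ?_⟩
    have : x ∈ K ∩ g ⁻¹' Iic 0 := ⟨hx, hgx⟩
    rw [hne] at this
    exact absurd this (notMem_empty x)
  · obtain ⟨z, hz, hmax⟩ := h1.exists_isMaxOn hne (hφ.mono inter_subset_left)
    exact ⟨φ z, h z hz.1 hz.2, fun x hx hgx => hmax ⟨hx, hgx⟩⟩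

theorem exists_between_compact {α : Type*} [TopologicalSpace α] {A B : Set α}
    (hA : IsCompact A) (hB : IsCompact B) {u : α → ℝ} (hAu : ContinuousOn u A)
    (hBu : ContinuousOn u B) (h : ∀ x ∈ A, ∀ y ∈ B, u x < u y) :
    ∃ R, (∀ x ∈ A, u x < R) ∧ ∀ y ∈ B, R < u y := by
  rcases A.eq_empty_or_nonempty with hAe | hAe
  · rcases B.eq_empty_or_nonempty with hBe | hBe
    · exact ⟨0, fun x hx => by rw [hAe] at hx; exact absurd hx (notMem_empty x),
        fun x hx => by rw [hBe] at hx; exact absurd hx (notMem_empty x)⟩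
    · obtain ⟨z, hz, hmin⟩ := hB.exists_isMinOn hBe hBu
      refine ⟨u z - 1, fun x hx => by rw [hAe] at hx; exact absurd hx (notMem_empty x),
        fun y hy => ?_⟩
      have : u z ≤ u y := hmin hy
      linarith
  · obtain ⟨z, hz, hmax⟩ := hA.exists_isMaxOn hAe hAu
    rcases B.eq_empty_or_nonempty with hBe | hBe
    · refine ⟨u z + 1, fun x hx => ?_,
        fun x hx => by rw [hBe] at hx; exact absurd hx (notMem_empty x)⟩
      have : u x ≤ u z := hmax hx
      linarith
    · obtain ⟨w, hw, hmin⟩ := hB.exists_isMinOn hBe hBu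
      have h1 := h z hz w hw
      refine ⟨(u z + u w) / 2, fun x hx => ?_, fun y hy => ?_⟩
      · have : u x ≤ u z := hmax hx
        linarith
      · have : u w ≤ u y := hmin hy
        linarith

/-- The general estimate. For every coordinate `i` a point `o0 i` separates the images of the two
faces, and one of three situations holds. -/
theorem sum_sq_le (f : EuclideanSpace ℝ (Fin n) → EuclideanSpace ℝ (Fin n))
    (hf : IsExpandingOn f (cube n)) (p : EuclideanSpace ℝ (Fin n)) (r : ℝ)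
    (h : Set.MapsTo f (cube n) (closedBall p r)) (o0 c0 κ : Fin n → ℝ)
    (hO1 : ∀ i, ∀ x ∈ cube n, x i = -1 → f x i < o0 i)
    (hO2 : ∀ i, ∀ y ∈ cube n, y i = 1 → o0 i < f y i)
    (hκ0 : ∀ i, 0 ≤ κ i) (hκ2 : ∀ i, κ i ≤ 2)
    (hO3 : ∀ i, (c0 i = 0 ∧ o0 i = p i ∧ κ i ≤ 1) ∨
      (((c0 i = -1 ∧ o0 i ≤ p i) ∨ (c0 i = 1 ∧ p i ≤ o0 i)) ∧
        ((∀ x ∈ cube n, f x i = o0 i → c0 i * x i ≤ 1 - κ i) ∨ κ i ≤ |o0 i - p i|))) :
    ∑ i, κ i ^ 2 ≤ r ^ 2 := by
  classical
  have h0 : (0 : EuclideanSpace ℝ (Fin n)) ∈ cube n := by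
    intro i
    simp
  have hr0 : 0 ≤ r := dist_nonneg.trans (h h0)
  rcases Nat.eq_zero_or_pos n with hn | hn
  · subst hn
    simp [sq_nonneg]
  have : Nonempty (Fin n) := ⟨⟨0, hn⟩⟩
  have hn' : (0 : ℝ) < n := by exact_mod_cast hn
  apply le_of_forall_pos_le_add
  intro θ hθ
  -- the small parameter
  set η : ℝ := min (1 / 4) (θ / (8 * n)) with hη
  have hη0 : 0 < η := lt_min (by norm_num) (div_pos hθ (by positivity))
  have hη1 : η ≤ 1 / 4 := min_le_left _ _
  have hη2 : 8 * n * η ≤ θ := by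
    have e1 : η ≤ θ / (8 * n) := min_le_right _ _
    calc 8 * n * η ≤ 8 * n * (θ / (8 * n)) := by
          apply mul_le_mul_of_nonneg_left e1 (by positivity)
      _ = θ := by field_simp
  have hXc : IsCompact (cube n) := isCompact_cubeS 1
  obtain ⟨δ, hδ, hexp⟩ := exists_uniform hXc hf
  have hfi : ∀ i, ContinuousOn (fun x => f x i) (cube n) := by
    intro i
    have hco : Continuous (fun y : EuclideanSpace ℝ (Fin n) => y i) := by fun_prop
    exact hco.comp_continuousOn hf.1
  have hci : ∀ i, ContinuousOn (fun x : EuclideanSpace ℝ (Fin n) => x i) (cube n) := by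
    intro i
    have hco : Continuous (fun y : EuclideanSpace ℝ (Fin n) => y i) := by fun_prop
    exact hco.continuousOn
  set o : EuclideanSpace ℝ (Fin n) := WithLp.toLp 2 o0 with ho
  have hoi : ∀ i, o i = o0 i := fun i => rfl
  set g : EuclideanSpace ℝ (Fin n) → EuclideanSpace ℝ (Fin n) := fun x => f x - o with hg
  have hgi : ∀ x i, g x i = f x i - o0 i := fun x i => rfl
  have hgc : ContinuousOn g (cube n) := hf.1.sub continuousOn_const
  have hgexp : ∀ y ∈ cube n, ∀ z ∈ cube n, dist y z < δ → dist y z ≤ dist (g y) (g z) := by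
    intro y hy z hz hyz
    simp only [hg]
    rw [dist_sub_right]
    exact hexp y hy z hz hyz
  have hgr : ∀ x ∈ cube n, ‖g x‖ ≤ r + ‖p - o‖ := by
    intro x hx
    have e1 := h hx
    rw [mem_closedBall, dist_eq_norm] at e1
    calc ‖g x‖ = ‖(f x - p) + (p - o)‖ := by simp only [hg]; congr 1; abel
      _ ≤ ‖f x - p‖ + ‖p - o‖ := norm_add_le _ _
      _ ≤ r + ‖p - o‖ := by linarith
  -- the corners
  set c : EuclideanSpace ℝ (Fin n) → Fin n → ℝ := fun h j =>
    if c0 j = 0 then (if 0 ≤ h j then -1 else 1) else c0 j with hc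
  have hc1 : ∀ h j, c h j = 1 ∨ c h j = -1 := by
    intro h j
    simp only [hc]
    rcases hO3 j with h3 | ⟨h3 | h3, -⟩
    · rw [if_pos h3.1]
      by_cases h4 : 0 ≤ h j
      · right; rw [if_pos h4]
      · left; rw [if_neg h4]
    · rw [if_neg (by rw [h3.1]; norm_num)]
      right; exact h3.1
    · rw [if_neg (by rw [h3.1]; norm_num)]
      left; exact h3.1
  have hch : ∀ z ∈ cube n, g z = 0 → ∀ j, c z j * z j ≤ 1 - κ j ∨ κ j ≤ |o0 j - p j| := by
    intro z hz hgz j
    have e1 : f z j = o0 j := by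
      have := hgi z j
      rw [hgz] at this
      simp only [PiLp.zero_apply] at this
      linarith
    simp only [hc]
    rcases hO3 j with h3 | ⟨h3, h4⟩
    · left
      rw [if_pos h3.1]
      by_cases h4 : 0 ≤ z j
      · rw [if_pos h4]; linarith [h3.2.2]
      · rw [if_neg h4]; push Not at h4; linarith [h3.2.2]
    · have h5 : c0 j ≠ 0 := by
        rcases h3 with h3 | h3 <;> rw [h3.1] <;> norm_num
      rw [if_neg h5]
      rcases h4 with h4 | h4
      · left; exact h4 z hz e1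
      · right; exact h4
  have hco : ∀ z j, 0 ≤ c z j * (o0 j - p j) := by
    intro z j
    simp only [hc]
    rcases hO3 j with h3 | ⟨h3 | h3, -⟩
    · rw [h3.2.1]; simp
    · rw [if_neg (by rw [h3.1]; norm_num), h3.1]
      linarith [h3.2]
    · rw [if_neg (by rw [h3.1]; norm_num), h3.1]
      linarith [h3.2]
  -- the smaller cube
  have hs1 : ∀ j, ∃ t < 1, ∀ x ∈ cube n, f x j - o0 j ≤ 0 → x j ≤ t := fun j =>
    exists_lt_one hXc ((hfi j).sub continuousOn_const) (hci j) (fun x hx hxo => by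
      apply lt_of_le_of_ne ((le_abs_self _).trans (hx j))
      intro e1
      have := hO2 j x hx e1
      linarith)
  have hs2 : ∀ j, ∃ t < 1, ∀ x ∈ cube n, o0 j - f x j ≤ 0 → -x j ≤ t := fun j =>
    exists_lt_one hXc (continuousOn_const.sub (hfi j)) (hci j).neg (fun x hx hxo => by
      apply lt_of_le_of_ne ((neg_le_abs _).trans (hx j))
      intro e1
      have := hO1 j x hx (by linarith)
      linarith)
  choose t1 ht1 ht1' using hs1
  choose t2 ht2 ht2' using hs2
  obtain ⟨k1, hk1⟩ := Finite.exists_max t1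
  obtain ⟨k2, hk2⟩ := Finite.exists_max t2
  have hfin := finite_zeros hXc hgc hδ hgexp
  set M : ℝ := max (1 - η) (max (t1 k1) (t2 k2)) with hM
  have hM1 : M < 1 := by
    apply max_lt (by linarith)
    exact max_lt (ht1 k1) (ht2 k2)
  have hbad : (⋃ i : Fin n, (fun x : EuclideanSpace ℝ (Fin n) => |x i|) ''
      (cube n ∩ g ⁻¹' {0})).Finite := Set.finite_iUnion fun i => hfin.image _
  obtain ⟨s, ⟨hsm, hs1⟩, hsbad⟩ := ((Set.Ioo_infinite hM1).sdiff hbad).nonempty
  have hsη : 1 - η < s := lt_of_le_of_lt (le_max_left _ _) hsm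
  have hs0 : 0 < s := by linarith
  have hsp : ∀ j, ∀ x ∈ cube n, x j = s → 0 < g x j := by
    intro j x hx hxj
    rw [hgi]
    by_contra hle
    push Not at hle
    have e1 := ht1' j x hx hle
    have e2 := hk1 j
    have e3 : t1 k1 < s := lt_of_le_of_lt ((le_max_left _ _).trans (le_max_right _ _)) hsm
    linarith
  have hsm' : ∀ j, ∀ x ∈ cube n, x j = -s → g x j < 0 := by
    intro j x hx hxj
    rw [hgi]
    by_contra hle
    push Not at hle
    have e1 := ht2' j x hx (by linarith)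
    have e2 := hk2 j
    have e3 : t2 k2 < s := lt_of_le_of_lt ((le_max_right _ _).trans (le_max_right _ _)) hsm
    linarith
  have hsub : {x : EuclideanSpace ℝ (Fin n) | ∀ i, |x i| ≤ s} ⊆ cube n :=
    fun x hx i => (hx i).trans hs1.le
  -- signs along radial paths
  have hsign : ∀ {a b : ℝ} {u : EuclideanSpace ℝ (Fin n)} {γ : ℝ → EuclideanSpace ℝ (Fin n)},
      (a, b, u, γ) ∈ radSet g {x : EuclideanSpace ℝ (Fin n) | ∀ i, |x i| ≤ s}
        (r + ‖p - o‖) → ∀ j, ∀ e : ℝ, (e = 1 ∨ e = -1) → γ b j = e * s → 0 < e * u j := by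
    intro a b u γ hq' j e he hγ
    have e1 := radSet_apply hq' b right_mem_uIcc
    have e2 : g (γ b) j = b * u j := by rw [e1]; rfl
    have e3 := hsub (hq'.2.2.2.2.1 b)
    have e4 : 0 ≤ b := hq'.2.1.1
    rcases he with he | he
    · rw [he, one_mul] at hγ ⊢
      have e5 := hsp j _ e3 hγ
      rw [e2] at e5
      by_contra e6
      push Not at e6
      have : b * u j ≤ 0 := mul_nonpos_of_nonneg_of_nonpos e4 e6
      linarith
    · rw [he, neg_one_mul] at hγ ⊢
      have e5 := hsm' j _ e3 hγ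
      rw [e2] at e5
      by_contra e6
      push Not at e6
      have : 0 ≤ b * u j := mul_nonneg e4 (by linarith)
      linarith
  obtain ⟨hh, x, hhQ, hh0, hxQ, hx0, hxh, htouch⟩ := core2 (f := g) hn hs0 hδ (hgc.mono hsub)
    (fun y hy z hz => hgexp y (hsub hy) z (hsub hz)) (fun x hx => hgr x (hsub hx))
    (by
      intro x hx hxQ i
      apply lt_of_le_of_ne (hxQ i)
      intro h3
      apply hsbad
      exact Set.mem_iUnion.mpr ⟨i, x, ⟨hsub hxQ, hx⟩, h3⟩)
    (by
      rintro x hx j ⟨h1, h2⟩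
      obtain ⟨a, b, u, γ, p1, p2, p3⟩ := mem_touch.mp h1
      obtain ⟨a', b', u', γ', p1', p2', p3'⟩ := mem_touch.mp h2
      have h4 := radSet_start p1 (by rw [p2]; exact hx)
      have h4' := radSet_start p1' (by rw [p2']; exact hx)
      rw [p2] at h4
      rw [p2'] at h4'
      have hu : u' = u := h4'.2.trans h4.2.symm
      have e1 := hsign p1 j 1 (Or.inl rfl) (by rw [one_mul]; exact p3)
      have e2 := hsign p1' j (-1) (Or.inr rfl) (by rw [neg_one_mul]; exact p3')
      rw [hu] at e2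
      linarith)
    c hc1 (e0 := η) hη0
  -- all touching paths have length at most `r`
  set a := ‖g x‖ with ha
  set u := a⁻¹ • g x with hu
  have hex : ∀ j, ∃ b γ, (a, b, u, γ) ∈ radSet g
      {x : EuclideanSpace ℝ (Fin n) | ∀ i, |x i| ≤ s} (r + ‖p - o‖) ∧ γ a = x ∧
      γ b j = c hh j * s := by
    intro j
    obtain ⟨a', b, u', γ, q1, q2, q3⟩ := mem_touch.mp (htouch j)
    have h4 := radSet_start q1 (by rw [q2]; exact hx0)
    rw [q2] at h4
    obtain ⟨h4, h5⟩ := h4
    have h6 : a' = a := h4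
    have h7 : u' = u := h5
    rw [h6, h7] at q1
    rw [h6] at q2
    exact ⟨b, γ, q1, q2, q3⟩
  have hup : ∀ j, 0 < c hh j * u j := by
    intro j
    obtain ⟨b, γ, q1, -, q3⟩ := hex j
    exact hsign q1 j _ (hc1 hh j) q3
  have hinn : 0 ≤ inner ℝ u (o - p) := by
    rw [PiLp.inner_apply]
    apply Finset.sum_nonneg
    intro j _
    have e1 : inner ℝ (u j) ((o - p) j) = (c hh j * u j) * (c hh j * (o0 j - p j)) := by
      have e2 : c hh j * c hh j = 1 := by
        rcases hc1 hh j with e | e <;> rw [e] <;> norm_num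
      have e3 : (o - p) j = o0 j - p j := rfl
      rw [e3]
      calc inner ℝ (u j) (o0 j - p j) = (o0 j - p j) * u j := by
            simp
        _ = (c hh j * c hh j) * ((o0 j - p j) * u j) := by rw [e2, one_mul]
        _ = _ := by ring
    rw [e1]
    exact mul_nonneg (hup j).le (hco hh j)
  set N : ℝ := ∑ j, (o0 j - p j) ^ 2 with hN
  have hN1 : ‖o - p‖ ^ 2 = N := by
    rw [EuclideanSpace.norm_sq_eq]
    apply Finset.sum_congr rfl
    intro j _
    rw [Real.norm_eq_abs, sq_abs]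
    rfl
  have hle2 : ∀ t, 0 ≤ t → ∀ y ∈ cube n, g y = t • u → ‖u‖ = 1 → t ^ 2 + N ≤ r ^ 2 := by
    intro t ht y hy hgy hu1
    have e1 := h hy
    rw [mem_closedBall, dist_eq_norm] at e1
    have e2 : f y - p = t • u + (o - p) := by
      rw [← hgy]
      simp only [hg]
      abel
    rw [e2] at e1
    have e3 : t ^ 2 + N ≤ ‖t • u + (o - p)‖ ^ 2 := by
      rw [norm_add_sq_real, norm_smul, hu1, mul_one, Real.norm_eq_abs, sq_abs,
        inner_smul_left, hN1]
      have : 0 ≤ (starRingEnd ℝ) t * inner ℝ u (o - p) := mul_nonneg ht hinn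
      linarith
    exact e3.trans (pow_le_pow_left₀ (norm_nonneg _) e1 2)
  set R : ℝ := Real.sqrt (r ^ 2 - N) with hR
  have hle : ∀ t, 0 ≤ t → ∀ y ∈ cube n, g y = t • u → ‖u‖ = 1 → t ≤ R := by
    intro t ht y hy hgy hu1
    apply Real.le_sqrt_of_sq_le
    have := hle2 t ht y hy hgy hu1
    linarith
  have hNr : N ≤ r ^ 2 := by
    obtain ⟨b, γ, q1, q2, q3⟩ := hex (Classical.arbitrary _)
    have := hle2 a q1.1.1 _ (hsub (q1.2.2.2.2.1 a)) (radSet_apply q1 a left_mem_uIcc) q1.2.2.1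
    nlinarith [sq_nonneg a]
  have hR2 : R ^ 2 = r ^ 2 - N := Real.sq_sqrt (by linarith)
  have htouch' : ∀ j, x ∈ touch g {x : EuclideanSpace ℝ (Fin n) | ∀ i, |x i| ≤ s} R
      {y | y j = c hh j * s} := by
    intro j
    obtain ⟨b, γ, q1, q2, q3⟩ := hex j
    have e1 := radSet_apply q1
    have hu1 : ‖u‖ = 1 := q1.2.2.1
    refine mem_touch.mpr ⟨a, b, u, γ, radSet_mk ⟨q1.1.1, ?_⟩ ⟨q1.2.1.1, ?_⟩ hu1 q1.2.2.2.1
      q1.2.2.2.2.1 e1, q2, q3⟩
    · exact hle a q1.1.1 _ (hsub (q1.2.2.2.2.1 a)) (e1 a left_mem_uIcc) hu1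
    · exact hle b q1.2.1.1 _ (hsub (q1.2.2.2.2.1 b)) (e1 b right_mem_uIcc) hu1
  have hsum := sum_sq_le_of_touch hδ (fun y hy z hz => hgexp y (hsub hy) z (hsub hz)) hx0 _
    htouch'
  rw [hR2] at hsum
  -- the sum, term by term
  have hterm : ∀ j, κ j ^ 2 ≤ (c hh j * s - x j) ^ 2 + (o0 j - p j) ^ 2 + 8 * η := by
    intro j
    rcases hch hh (hsub hhQ) hh0 j with e1 | e1
    · have e2 := abs_coord_le_dist x hh j
      have e3 : κ j - 2 * η ≤ |c hh j * s - x j| := by
        rcases hc1 hh j with e4 | e4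
        · rw [e4] at e1 ⊢
          have := (abs_le.mp (e2.trans hxh.le)).2
          refine le_trans ?_ (le_abs_self _)
          linarith
        · rw [e4] at e1 ⊢
          have := (abs_le.mp (e2.trans hxh.le)).1
          refine le_trans ?_ (neg_le_abs _)
          linarith
      have e5 : κ j ^ 2 ≤ (c hh j * s - x j) ^ 2 + 8 * η := by
        rcases le_total (κ j) (2 * η) with e6 | e6
        · have e7 := hκ0 j
          nlinarith [sq_nonneg (c hh j * s - x j)]
        · have e7 : (κ j - 2 * η) ^ 2 ≤ (c hh j * s - x j) ^ 2 := by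
            rw [← sq_abs (c hh j * s - x j)]
            exact pow_le_pow_left₀ (by linarith) e3 2
          have e8 := hκ2 j
          nlinarith
      nlinarith [sq_nonneg (o0 j - p j)]
    · have e2 : κ j ^ 2 ≤ (o0 j - p j) ^ 2 := by
        rw [← sq_abs (o0 j - p j)]
        exact pow_le_pow_left₀ (hκ0 j) e1 2
      nlinarith [sq_nonneg (c hh j * s - x j)]
  calc ∑ j, κ j ^ 2 ≤ ∑ j, ((c hh j * s - x j) ^ 2 + (o0 j - p j) ^ 2 + 8 * η) :=
        Finset.sum_le_sum fun j _ => hterm j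
    _ = ∑ j, (c hh j * s - x j) ^ 2 + N + n * (8 * η) := by
        rw [Finset.sum_add_distrib, Finset.sum_add_distrib, hN]
        simp
    _ ≤ r ^ 2 + θ := by
        have : (n : ℝ) * (8 * η) = 8 * n * η := by ring
        linarith

end Pool.Agent.CubeR
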