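import Mathlib
import Pool.Agent.CubeR.Sum

/-!
# Coordinatewise separated maps: slabs and coarse monotonicity
-/

set_option autoImplicit false

open Filter Topology Set Metric

namespace Pool.Agent.CubeR

open Pool.Agent.Expand

variable {n : ℕ}

theorem coord_continuousOn {f : EuclideanSpace ℝ (Fin n) → EuclideanSpace ℝ (Fin n)}
    {X : Set (EuclideanSpace ℝ (Fin n))} (hf : ContinuousOn f X) (i : Fin n) :
    ContinuousOn (fun x => f x i) X := by
  have hco : Continuous (fun y : EuclideanSpace ℝ (Fin n) => y i) := by fun_prop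
  exact hco.comp_continuousOn hf

theorem isCompact_coord (S : Set ℝ) (hS : IsClosed S) (i : Fin n) :
    IsCompact (cube n ∩ (fun x : EuclideanSpace ℝ (Fin n) => x i) ⁻¹' S) := by
  have hXc : IsCompact (cube n) := isCompact_cubeS 1
  have hco : Continuous (fun y : EuclideanSpace ℝ (Fin n) => y i) := by fun_prop
  exact hXc.of_isClosed_subset
    (hco.continuousOn.preimage_isClosed_of_isClosed hXc.isClosed hS) inter_subset_left

/-- the point of the cube with constant coordinates `t` -/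
theorem const_mem_cube {t : ℝ} (ht : |t| ≤ 1) :
    (WithLp.toLp 2 (fun _ => t) : EuclideanSpace ℝ (Fin n)) ∈ cube n := fun _ => ht

/-- Images of opposite faces separated by orthogonal slabs of widths `w i > 0`. -/
theorem sum_min_sq_le (f : EuclideanSpace ℝ (Fin n) → EuclideanSpace ℝ (Fin n))
    (hf : IsExpandingOn f (cube n)) (p : EuclideanSpace ℝ (Fin n)) (r : ℝ)
    (h : Set.MapsTo f (cube n) (closedBall p r)) (w : Fin n → ℝ) (hw : ∀ i, 0 < w i)
    (hsep : ∀ i, ∀ x ∈ cube n, ∀ y ∈ cube n, x i = -1 → y i = 1 → f x i + w i ≤ f y i) :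
    ∑ i, (min 1 (w i)) ^ 2 ≤ r ^ 2 := by
  classical
  have key : ∀ e > 0, (∀ i, e < min 1 (w i)) → ∑ i, (min 1 (w i) - e) ^ 2 ≤ r ^ 2 := by
    intro e he hew
    have hdata : ∀ i, ∃ o c : ℝ, (∀ x ∈ cube n, x i = -1 → f x i < o) ∧
        (∀ y ∈ cube n, y i = 1 → o < f y i) ∧
        ((c = 0 ∧ o = p i ∧ min 1 (w i) - e ≤ 1) ∨
          (((c = -1 ∧ o ≤ p i) ∨ (c = 1 ∧ p i ≤ o)) ∧
            ((∀ x ∈ cube n, f x i = o → c * x i ≤ 1 - (min 1 (w i) - e)) ∨
              min 1 (w i) - e ≤ |o - p i|))) := by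
      intro i
      have hmw : min 1 (w i) ≤ w i := min_le_right _ _
      have hm1 : min 1 (w i) ≤ 1 := min_le_left _ _
      have hewi := hew i
      -- the largest value on the face `x i = -1` and the smallest on `x i = 1`
      have hne1 : (cube n ∩ (fun x : EuclideanSpace ℝ (Fin n) => x i) ⁻¹' {-1}).Nonempty :=
        ⟨WithLp.toLp 2 (fun _ => -1), const_mem_cube (by norm_num), rfl⟩
      have hne2 : (cube n ∩ (fun x : EuclideanSpace ℝ (Fin n) => x i) ⁻¹' {1}).Nonempty :=
        ⟨WithLp.toLp 2 (fun _ => 1), const_mem_cube (by norm_num), rfl⟩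
      obtain ⟨z, hz, hzmax⟩ := (isCompact_coord {-1} isClosed_singleton i).exists_isMaxOn hne1
        ((coord_continuousOn hf.1 i).mono inter_subset_left)
      obtain ⟨v, hv, hvmin⟩ := (isCompact_coord {1} isClosed_singleton i).exists_isMinOn hne2
        ((coord_continuousOn hf.1 i).mono inter_subset_left)
      have hA : ∀ x ∈ cube n, x i = -1 → f x i ≤ f z i := fun x hx hxi => hzmax ⟨hx, hxi⟩
      have hB : ∀ y ∈ cube n, y i = 1 → f v i ≤ f y i := fun y hy hyi => hvmin ⟨hy, hyi⟩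
      have hgap : f z i + w i ≤ f v i := hsep i z hz.1 v hv.1 hz.2 hv.2
      by_cases c1 : p i < f v i
      · by_cases c2 : f z i < p i
        · exact ⟨p i, 0, fun x hx hxi => (hA x hx hxi).trans_lt c2,
            fun y hy hyi => c1.trans_le (hB y hy hyi), Or.inl ⟨rfl, rfl, by linarith⟩⟩
        · push Not at c2
          refine ⟨f v i - e, 1, fun x hx hxi => ?_, fun y hy hyi => ?_,
            Or.inr ⟨Or.inr ⟨rfl, by linarith⟩, Or.inr ?_⟩⟩
          · have := hA x hx hxi
            linarith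
          · have := hB y hy hyi
            linarith
          · refine le_trans ?_ (le_abs_self _)
            linarith
      · push Not at c1
        refine ⟨f z i + e, -1, fun x hx hxi => ?_, fun y hy hyi => ?_,
          Or.inr ⟨Or.inl ⟨rfl, by linarith⟩, Or.inr ?_⟩⟩
        · have := hA x hx hxi
          linarith
        · have := hB y hy hyi
          linarith
        · refine le_trans ?_ (neg_le_abs _)
          linarith
    choose o0 c0 hO1 hO2 hO3 using hdata
    exact sum_sq_le f hf p r h o0 c0 (fun i => min 1 (w i) - e) hO1 hO2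
      (fun i => by linarith [hew i]) (fun i => by
        have : min 1 (w i) ≤ 1 := min_le_left _ _
        linarith) hO3
  -- let `e` tend to `0`
  have hlim : Tendsto (fun e : ℝ => ∑ i, (min 1 (w i) - e) ^ 2) (𝓝[>] 0)
      (𝓝 (∑ i, (min 1 (w i)) ^ 2)) := by
    have h1 : Continuous (fun e : ℝ => ∑ i, (min 1 (w i) - e) ^ 2) := by fun_prop
    have h2 := h1.tendsto 0
    simp only [sub_zero] at h2
    exact h2.mono_left nhdsWithin_le_nhds
  apply le_of_tendsto hlim
  have e1 : ∀ᶠ e in 𝓝[>] (0 : ℝ), ∀ i, e < min 1 (w i) := by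
    rw [Filter.eventually_all]
    intro i
    exact mem_nhdsWithin_of_mem_nhds (Iio_mem_nhds (lt_min zero_lt_one (hw i)))
  have e2 : ∀ᶠ e in 𝓝[>] (0 : ℝ), 0 < e := self_mem_nhdsWithin
  filter_upwards [e1, e2] with e h1 h2
  exact key e h2 h1

/-- Expanding maps which are coarsely monotone (up to `τ`) in every coordinate. -/
theorem sqrt_le_of_coarse (f : EuclideanSpace ℝ (Fin n) → EuclideanSpace ℝ (Fin n))
    (hf : IsExpandingOn f (cube n)) (p : EuclideanSpace ℝ (Fin n)) (r : ℝ)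
    (h : Set.MapsTo f (cube n) (closedBall p r)) {τ : ℝ} (hτ : 0 ≤ τ)
    (h1 : ∀ i, ∀ x ∈ cube n, ∀ y ∈ cube n, x i < -τ → y i = 1 → f x i < f y i)
    (h2 : ∀ i, ∀ x ∈ cube n, ∀ y ∈ cube n, x i = -1 → τ < y i → f x i < f y i) :
    (1 - τ) * Real.sqrt n ≤ r := by
  classical
  have h0 : (0 : EuclideanSpace ℝ (Fin n)) ∈ cube n := by
    intro i
    simp
  have hr0 : 0 ≤ r := dist_nonneg.trans (h h0)
  rcases le_or_gt 1 τ with hτ1 | hτ1
  · have : (1 - τ) * Real.sqrt n ≤ 0 :=
      mul_nonpos_of_nonpos_of_nonneg (by linarith) (Real.sqrt_nonneg _)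
    linarith
  have key : ∀ η > 0, η < 1 - τ → (n : ℝ) * (1 - τ - η) ^ 2 ≤ r ^ 2 := by
    intro η hη0 hη1
    have hR : ∀ i, ∃ R, (∀ x ∈ cube n, x i ≤ -(τ + η) → f x i < R) ∧
        ∀ y ∈ cube n, y i = 1 → R < f y i := by
      intro i
      obtain ⟨R, e1, e2⟩ := exists_between_compact
        (isCompact_coord (Iic (-(τ + η))) isClosed_Iic i)
        (isCompact_coord {1} isClosed_singleton i) (u := fun x => f x i)
        ((coord_continuousOn hf.1 i).mono inter_subset_left)
        ((coord_continuousOn hf.1 i).mono inter_subset_left)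
        (fun x hx y hy => h1 i x hx.1 y hy.1 (lt_of_le_of_lt hx.2 (by linarith)) hy.2)
      exact ⟨R, fun x hx hxi => e1 x ⟨hx, hxi⟩, fun y hy hyi => e2 y ⟨hy, hyi⟩⟩
    have hL : ∀ i, ∃ L, (∀ x ∈ cube n, x i = -1 → f x i < L) ∧
        ∀ y ∈ cube n, τ + η ≤ y i → L < f y i := by
      intro i
      obtain ⟨R, e1, e2⟩ := exists_between_compact (isCompact_coord {-1} isClosed_singleton i)
        (isCompact_coord (Ici (τ + η)) isClosed_Ici i) (u := fun x => f x i)
        ((coord_continuousOn hf.1 i).mono inter_subset_left)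
        ((coord_continuousOn hf.1 i).mono inter_subset_left)
        (fun x hx y hy => h2 i x hx.1 y hy.1 hx.2 (lt_of_lt_of_le (by linarith) hy.2))
      exact ⟨R, fun x hx hxi => e1 x ⟨hx, hxi⟩, fun y hy hyi => e2 y ⟨hy, hyi⟩⟩
    have hdata : ∀ i, ∃ o c : ℝ, (∀ x ∈ cube n, x i = -1 → f x i < o) ∧
        (∀ y ∈ cube n, y i = 1 → o < f y i) ∧
        ((c = 0 ∧ o = p i ∧ 1 - τ - η ≤ 1) ∨
          (((c = -1 ∧ o ≤ p i) ∨ (c = 1 ∧ p i ≤ o)) ∧
            ((∀ x ∈ cube n, f x i = o → c * x i ≤ 1 - (1 - τ - η)) ∨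
              1 - τ - η ≤ |o - p i|))) := by
      intro i
      obtain ⟨R, hR1, hR2⟩ := hR i
      obtain ⟨L, hL1, hL2⟩ := hL i
      by_cases c1 : ∀ y ∈ cube n, y i = 1 → p i < f y i
      · by_cases c2 : ∀ x ∈ cube n, x i = -1 → f x i < p i
        · exact ⟨p i, 0, c2, c1, Or.inl ⟨rfl, rfl, by linarith⟩⟩
        · push Not at c2
          obtain ⟨x, hx, hxi, hle⟩ := c2
          refine ⟨L, 1, hL1, fun y hy hyi => hL2 y hy (by rw [hyi]; linarith),
            Or.inr ⟨Or.inr ⟨rfl, (hle.trans_lt (hL1 x hx hxi)).le⟩,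
              Or.inl fun z hz hzi => ?_⟩⟩
          by_contra hzη
          push Not at hzη
          have := hL2 z hz (by linarith)
          rw [hzi] at this
          exact lt_irrefl _ this
      · push Not at c1
        obtain ⟨y, hy, hyi, hle⟩ := c1
        refine ⟨R, -1, fun x hx hxi => hR1 x hx (by rw [hxi]; linarith), hR2,
          Or.inr ⟨Or.inl ⟨rfl, ((hR2 y hy hyi).trans_le hle).le⟩,
            Or.inl fun z hz hzi => ?_⟩⟩
        by_contra hzη
        push Not at hzη
        have := hR1 z hz (by linarith)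
        rw [hzi] at this
        exact lt_irrefl _ this
    choose o0 c0 hO1 hO2 hO3 using hdata
    have := sum_sq_le f hf p r h o0 c0 (fun _ => 1 - τ - η) hO1 hO2
      (fun i => by linarith) (fun i => by linarith) hO3
    simpa using this
  have hlim : Tendsto (fun η : ℝ => (n : ℝ) * (1 - τ - η) ^ 2) (𝓝[>] 0)
      (𝓝 ((n : ℝ) * (1 - τ) ^ 2)) := by
    have h1 : Continuous (fun η : ℝ => (n : ℝ) * (1 - τ - η) ^ 2) := by fun_prop
    have h2 := h1.tendsto 0
    simp only [sub_zero] at h2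
    exact h2.mono_left nhdsWithin_le_nhds
  have h3 : (n : ℝ) * (1 - τ) ^ 2 ≤ r ^ 2 := by
    apply le_of_tendsto hlim
    have e1 : ∀ᶠ e in 𝓝[>] (0 : ℝ), e < 1 - τ :=
      mem_nhdsWithin_of_mem_nhds (Iio_mem_nhds (by linarith))
    have e2 : ∀ᶠ e in 𝓝[>] (0 : ℝ), 0 < e := self_mem_nhdsWithin
    filter_upwards [e1, e2] with e h1 h2
    exact key e h2 h1
  apply abs_le_of_sq_le_sq' _ hr0 |>.2
  rw [mul_pow, Real.sq_sqrt (Nat.cast_nonneg n)]
  linarith

end Pool.Agent.CubeR
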