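import Mathlib
import Pool.Agent.CubeR.Coarse

/-!
# Versions with a linear isometry, and coordinates of mixed type
-/

set_option autoImplicit false

open Filter Topology Set Metric

namespace Pool.Agent.CubeR

open Pool.Agent.Expand

variable {n : ℕ}

theorem isExpandingOn_comp {f : EuclideanSpace ℝ (Fin n) → EuclideanSpace ℝ (Fin n)}
    {X : Set (EuclideanSpace ℝ (Fin n))} (hf : IsExpandingOn f X)
    (L : EuclideanSpace ℝ (Fin n) ≃ₗᵢ[ℝ] EuclideanSpace ℝ (Fin n)) :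
    IsExpandingOn (fun x => L (f x)) X := by
  refine ⟨L.continuous.comp_continuousOn hf.1, fun x hx => ?_⟩
  obtain ⟨U, hU, hUe⟩ := hf.2 x hx
  refine ⟨U, hU, fun y hy z hz => ?_⟩
  rw [L.dist_map]
  exact hUe y hy z hz

theorem mapsTo_comp {f : EuclideanSpace ℝ (Fin n) → EuclideanSpace ℝ (Fin n)}
    {X : Set (EuclideanSpace ℝ (Fin n))} {p : EuclideanSpace ℝ (Fin n)} {r : ℝ}
    (h : Set.MapsTo f X (closedBall p r))
    (L : EuclideanSpace ℝ (Fin n) ≃ₗᵢ[ℝ] EuclideanSpace ℝ (Fin n)) :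
    Set.MapsTo (fun x => L (f x)) X (closedBall (L p) r) := by
  intro x hx
  have := h hx
  rw [mem_closedBall] at this ⊢
  rw [L.dist_map]
  exact this

/-- Coordinate `i` of the map `f` is tame with constant `k`: either the images of the faces
`x i = -1` and `x i = 1` are separated by a slab of width `k`, or the coordinate is monotone
between each of these faces and the part of the cube on the other side of `1 - k`, or it is
within `1 - k / 2` of `x i + v`. -/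
def Tame (n : ℕ) (f : EuclideanSpace ℝ (Fin n) → EuclideanSpace ℝ (Fin n)) (i : Fin n)
    (k : ℝ) : Prop :=
  (∀ x ∈ cube n, ∀ y ∈ cube n, x i = -1 → y i = 1 → f x i + k ≤ f y i) ∨
  ((∀ x ∈ cube n, ∀ y ∈ cube n, x i < k - 1 → y i = 1 → f x i < f y i) ∧
    ∀ x ∈ cube n, ∀ y ∈ cube n, x i = -1 → 1 - k < y i → f x i < f y i) ∨
  ∃ v : ℝ, ∀ x ∈ cube n, |f x i - x i - v| ≤ 1 - k / 2

/-- data for one coordinate, slabs -/
theorem data_slab {f : EuclideanSpace ℝ (Fin n) → EuclideanSpace ℝ (Fin n)}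
    (hf : ContinuousOn f (cube n)) (i : Fin n) (q : ℝ) {k e : ℝ} (he : 0 < e) (hek : e < k)
    (hk1 : k ≤ 1)
    (hsep : ∀ x ∈ cube n, ∀ y ∈ cube n, x i = -1 → y i = 1 → f x i + k ≤ f y i) :
    ∃ o c : ℝ, (∀ x ∈ cube n, x i = -1 → f x i < o) ∧
      (∀ y ∈ cube n, y i = 1 → o < f y i) ∧
      ((c = 0 ∧ o = q ∧ k - e ≤ 1) ∨
        (((c = -1 ∧ o ≤ q) ∨ (c = 1 ∧ q ≤ o)) ∧
          ((∀ x ∈ cube n, f x i = o → c * x i ≤ 1 - (k - e)) ∨ k - e ≤ |o - q|))) := by
  have hne1 : (cube n ∩ (fun x : EuclideanSpace ℝ (Fin n) => x i) ⁻¹' {-1}).Nonempty :=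
    ⟨WithLp.toLp 2 (fun _ => -1), const_mem_cube (by norm_num), rfl⟩
  have hne2 : (cube n ∩ (fun x : EuclideanSpace ℝ (Fin n) => x i) ⁻¹' {1}).Nonempty :=
    ⟨WithLp.toLp 2 (fun _ => 1), const_mem_cube (by norm_num), rfl⟩
  obtain ⟨z, hz, hzmax⟩ := (isCompact_coord {-1} isClosed_singleton i).exists_isMaxOn hne1
    ((coord_continuousOn hf i).mono inter_subset_left)
  obtain ⟨v, hv, hvmin⟩ := (isCompact_coord {1} isClosed_singleton i).exists_isMinOn hne2
    ((coord_continuousOn hf i).mono inter_subset_left)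
  have hA : ∀ x ∈ cube n, x i = -1 → f x i ≤ f z i := fun x hx hxi => hzmax ⟨hx, hxi⟩
  have hB : ∀ y ∈ cube n, y i = 1 → f v i ≤ f y i := fun y hy hyi => hvmin ⟨hy, hyi⟩
  have hgap : f z i + k ≤ f v i := hsep z hz.1 v hv.1 hz.2 hv.2
  by_cases c1 : q < f v i
  · by_cases c2 : f z i < q
    · exact ⟨q, 0, fun x hx hxi => (hA x hx hxi).trans_lt c2,
        fun y hy hyi => c1.trans_le (hB y hy hyi), Or.inl ⟨rfl, rfl, by linarith⟩⟩
    · push Not at c2
      refine ⟨f v i - e, 1, fun x hx hxi => ?_, fun y hy hyi => ?_,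
        Or.inr ⟨Or.inr ⟨rfl, by linarith⟩, Or.inr ?_⟩⟩
      · have := hA x hx hxi
        linarith
      · have := hB y hy hyi
        linarith
      · refine le_trans ?_ (le_abs_self _)
        linarith
  · push Not at c1
    refine ⟨f z i + e, -1, fun x hx hxi => ?_, fun y hy hyi => ?_,
      Or.inr ⟨Or.inl ⟨rfl, by linarith⟩, Or.inr ?_⟩⟩
    · have := hA x hx hxi
      linarith
    · have := hB y hy hyi
      linarith
    · refine le_trans ?_ (neg_le_abs _)
      linarith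

/-- data for one coordinate, coarse monotonicity -/
theorem data_coarse {f : EuclideanSpace ℝ (Fin n) → EuclideanSpace ℝ (Fin n)}
    (hf : ContinuousOn f (cube n)) (i : Fin n) (q : ℝ) {k e : ℝ} (he : 0 < e) (hek : e < k)
    (hk1 : k ≤ 1)
    (h1 : ∀ x ∈ cube n, ∀ y ∈ cube n, x i < k - 1 → y i = 1 → f x i < f y i)
    (h2 : ∀ x ∈ cube n, ∀ y ∈ cube n, x i = -1 → 1 - k < y i → f x i < f y i) :
    ∃ o c : ℝ, (∀ x ∈ cube n, x i = -1 → f x i < o) ∧
      (∀ y ∈ cube n, y i = 1 → o < f y i) ∧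
      ((c = 0 ∧ o = q ∧ k - e ≤ 1) ∨
        (((c = -1 ∧ o ≤ q) ∨ (c = 1 ∧ q ≤ o)) ∧
          ((∀ x ∈ cube n, f x i = o → c * x i ≤ 1 - (k - e)) ∨ k - e ≤ |o - q|))) := by
  obtain ⟨R, hR1', hR2'⟩ := exists_between_compact
    (isCompact_coord (Iic (k - 1 - e)) isClosed_Iic i)
    (isCompact_coord {1} isClosed_singleton i) (u := fun x => f x i)
    ((coord_continuousOn hf i).mono inter_subset_left)
    ((coord_continuousOn hf i).mono inter_subset_left)
    (fun x hx y hy => h1 x hx.1 y hy.1 (lt_of_le_of_lt hx.2 (by linarith)) hy.2)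
  have hR1 : ∀ x ∈ cube n, x i ≤ k - 1 - e → f x i < R := fun x hx hxi => hR1' x ⟨hx, hxi⟩
  have hR2 : ∀ y ∈ cube n, y i = 1 → R < f y i := fun y hy hyi => hR2' y ⟨hy, hyi⟩
  obtain ⟨S, hL1', hL2'⟩ := exists_between_compact (isCompact_coord {-1} isClosed_singleton i)
    (isCompact_coord (Ici (1 - k + e)) isClosed_Ici i) (u := fun x => f x i)
    ((coord_continuousOn hf i).mono inter_subset_left)
    ((coord_continuousOn hf i).mono inter_subset_left)
    (fun x hx y hy => h2 x hx.1 y hy.1 hx.2 (lt_of_lt_of_le (by linarith) hy.2))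
  have hL1 : ∀ x ∈ cube n, x i = -1 → f x i < S := fun x hx hxi => hL1' x ⟨hx, hxi⟩
  have hL2 : ∀ y ∈ cube n, 1 - k + e ≤ y i → S < f y i := fun y hy hyi => hL2' y ⟨hy, hyi⟩
  by_cases c1 : ∀ y ∈ cube n, y i = 1 → q < f y i
  · by_cases c2 : ∀ x ∈ cube n, x i = -1 → f x i < q
    · exact ⟨q, 0, c2, c1, Or.inl ⟨rfl, rfl, by linarith⟩⟩
    · push Not at c2
      obtain ⟨x, hx, hxi, hle⟩ := c2
      refine ⟨S, 1, hL1, fun y hy hyi => hL2 y hy (by rw [hyi]; linarith),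
        Or.inr ⟨Or.inr ⟨rfl, (hle.trans_lt (hL1 x hx hxi)).le⟩,
          Or.inl fun z hz hzi => ?_⟩⟩
      by_contra hzη
      push Not at hzη
      have := hL2 z hz (by linarith)
      rw [hzi] at this
      exact lt_irrefl _ this
  · push Not at c1
    obtain ⟨y, hy, hyi, hle⟩ := c1
    refine ⟨R, -1, fun x hx hxi => hR1 x hx (by rw [hxi]; linarith), hR2,
      Or.inr ⟨Or.inl ⟨rfl, ((hR2 y hy hyi).trans_le hle).le⟩,
        Or.inl fun z hz hzi => ?_⟩⟩
    by_contra hzη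
    push Not at hzη
    have := hR1 z hz (by linarith)
    rw [hzi] at this
    exact lt_irrefl _ this

/-- Expanding maps all of whose coordinates are tame. -/
theorem sum_sq_le_of_tame (f : EuclideanSpace ℝ (Fin n) → EuclideanSpace ℝ (Fin n))
    (hf : IsExpandingOn f (cube n)) (p : EuclideanSpace ℝ (Fin n)) (r : ℝ)
    (h : Set.MapsTo f (cube n) (closedBall p r)) (k : Fin n → ℝ)
    (hk : ∀ i, 0 < k i ∧ k i ≤ 1) (ht : ∀ i, Tame n f i (k i)) :
    ∑ i, k i ^ 2 ≤ r ^ 2 := by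
  classical
  have key : ∀ e > 0, (∀ i, e < k i) → ∑ i, (k i - e) ^ 2 ≤ r ^ 2 := by
    intro e he hek
    have hdata : ∀ i, ∃ o c : ℝ, (∀ x ∈ cube n, x i = -1 → f x i < o) ∧
        (∀ y ∈ cube n, y i = 1 → o < f y i) ∧
        ((c = 0 ∧ o = p i ∧ k i - e ≤ 1) ∨
          (((c = -1 ∧ o ≤ p i) ∨ (c = 1 ∧ p i ≤ o)) ∧
            ((∀ x ∈ cube n, f x i = o → c * x i ≤ 1 - (k i - e)) ∨
              k i - e ≤ |o - p i|))) := by
      intro i
      rcases ht i with h1 | ⟨h1, h2⟩ | ⟨v, hv⟩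
      · exact data_slab hf.1 i (p i) he (hek i) (hk i).2 h1
      · exact data_coarse hf.1 i (p i) he (hek i) (hk i).2 h1 h2
      · refine data_slab hf.1 i (p i) he (hek i) (hk i).2 (fun x hx y hy hxi hyi => ?_)
        have e1 := (abs_le.mp (hv x hx)).2
        have e2 := (abs_le.mp (hv y hy)).1
        rw [hxi] at e1
        rw [hyi] at e2
        linarith
    choose o0 c0 hO1 hO2 hO3 using hdata
    exact sum_sq_le f hf p r h o0 c0 (fun i => k i - e) hO1 hO2
      (fun i => by linarith [hek i]) (fun i => by linarith [(hk i).2]) hO3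
  have hlim : Tendsto (fun e : ℝ => ∑ i, (k i - e) ^ 2) (𝓝[>] 0) (𝓝 (∑ i, k i ^ 2)) := by
    have h1 : Continuous (fun e : ℝ => ∑ i, (k i - e) ^ 2) := by fun_prop
    have h2 := h1.tendsto 0
    simp only [sub_zero] at h2
    exact h2.mono_left nhdsWithin_le_nhds
  apply le_of_tendsto hlim
  have e1 : ∀ᶠ e in 𝓝[>] (0 : ℝ), ∀ i, e < k i := by
    rw [Filter.eventually_all]
    intro i
    exact mem_nhdsWithin_of_mem_nhds (Iio_mem_nhds (hk i).1)
  have e2 : ∀ᶠ e in 𝓝[>] (0 : ℝ), 0 < e := self_mem_nhdsWithin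
  filter_upwards [e1, e2] with e h1 h2
  exact key e h2 h1

end Pool.Agent.CubeR
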